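import Mathlib
import Pool.Agent.H8.PermLLL

namespace Pool.Agent.Results.MP_ef0d97_co.Cubic

open Finset

/-- The Hamilton cycle `σ 0, σ 1, ..., σ (n-1)` is `(2,2)`-acceptable for `F`. -/
def Acceptable {n : ℕ} (F : Finset (Finset (Fin n))) (σ : Equiv.Perm (Fin n)) : Prop :=
  ∀ i j, Disjoint ({σ i, σ (finRotate n i)} : Finset (Fin n)) {σ j, σ (finRotate n j)} →
    ({σ i, σ (finRotate n i)} ∪ {σ j, σ (finRotate n j)}) ∉ F

/-- The permutations preserving `F` act transitively on the points. -/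
def VertexTransitive {n : ℕ} (F : Finset (Finset (Fin n))) : Prop :=
  ∀ u v, ∃ π : Equiv.Perm (Fin n), F.image (fun S => S.image π) = F ∧ π u = v

/-- `v(n)`. -/
noncomputable def v (n : ℕ) : ℕ :=
  sInf {m | ∃ F : Finset (Finset (Fin n)), (∀ S ∈ F, S.card = 4) ∧ VertexTransitive F ∧
    (∀ σ, ¬ Acceptable F σ) ∧ F.card = m}

lemma lower {n : ℕ} (hn : 8 ≤ n) (F : Finset (Finset (Fin n))) (hF : ∀ S ∈ F, S.card = 4)
    (hT : VertexTransitive F) (hA : ∀ σ, ¬ Acceptable F σ) : n ^ 3 ≤ 2 ^ 21 * F.card := by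
  let u : Fin n := ⟨0, by omega⟩
  have le : ∀ a b, (F.filter fun S => a ∈ S).card ≤ (F.filter fun S => b ∈ S).card := by
    intro a b
    obtain ⟨π, h1, h2⟩ := hT a b
    refine card_le_card_of_injOn (fun S => S.image π) (fun S hS => ?_)
      (image_injective π.injective).injOn
    obtain ⟨h3, h4⟩ := mem_filter.1 hS
    exact mem_filter.2 ⟨h1 ▸ mem_image_of_mem _ h3, h2 ▸ mem_image_of_mem _ h4⟩
  have h : n ^ 2 < 2 ^ 19 * (F.filter fun S => u ∈ S).card := by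
    by_contra hc
    obtain ⟨σ, hσ⟩ := H8.PermLLL.exists_cycle hn F hF _ (fun a => le a u) (not_lt.1 hc)
    exact hA σ fun i j _ => hσ i j
  have h2 : ∑ a, (F.filter fun S => a ∈ S).card = F.card * 4 := by
    simp only [card_filter]
    rw [sum_comm, ← smul_eq_mul, ← sum_const]
    exact sum_congr rfl fun S hS => by simp [← hF S hS]
  have h3 : n * (F.filter fun S => u ∈ S).card ≤ F.card * 4 := by
    rw [← h2]
    simpa using card_nsmul_le_sum univ _ _ fun a _ => le u a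
  nlinarith [Nat.mul_le_mul_left n h.le]

section
variable (m : ℕ)

def f1 (z : Fin (m + 4) × Fin (m + 4) × Fin (m + 4)) : Finset (Fin (m + 4)) :=
  {z.1, z.1 + z.2.1} ∪ {z.2.2, z.2.2 + z.2.1}

def f2 (z : Fin (m + 4) × Fin (m + 4) × Fin (m + 4)) : Finset (Fin (m + 4)) :=
  {z.1, z.1 + z.2.1} ∪ {z.1 + z.2.1 + z.2.1, z.2.2}

def W : Finset (Finset (Fin (m + 4))) :=
  (univ.image (f1 m) ∪ univ.image (f2 m)).filter fun S => S.card = 4

lemma W_card : (W m).card ≤ 2 * (m + 4) ^ 3 := by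
  refine (card_filter_le _ _).trans ((card_union_le _ _).trans ?_)
  have h1 := card_image_le (s := univ) (f := f1 m)
  have h2 := card_image_le (s := univ) (f := f2 m)
  simp only [card_univ, Fintype.card_prod, Fintype.card_fin] at h1 h2
  nlinarith

lemma W_trans : VertexTransitive (W m) := by
  intro a b
  refine ⟨Equiv.addRight (b - a), ?_, by simp⟩
  refine eq_of_subset_of_card_le (fun S hS => ?_)
    (card_image_of_injective _ (image_injective (Equiv.injective _))).ge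
  obtain ⟨T, hT, rfl⟩ := mem_image.1 hS
  obtain ⟨h1, h2⟩ := mem_filter.1 hT
  refine mem_filter.2 ⟨?_, by rw [card_image_of_injective _ (Equiv.injective _), h2]⟩
  rcases mem_union.1 h1 with h | h <;> obtain ⟨⟨x, d, y⟩, -, rfl⟩ := mem_image.1 h
  · refine mem_union_left _ (mem_image.2 ⟨(x + (b - a), d, y + (b - a)), mem_univ _, ?_⟩)
    simp only [f1, image_union, image_insert, image_singleton, Equiv.coe_addRight]
    rw [add_right_comm x, add_right_comm y]
  · refine mem_union_right _ (mem_image.2 ⟨(x + (b - a), d, y + (b - a)), mem_univ _, ?_⟩)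
    simp only [f2, image_union, image_insert, image_singleton, Equiv.coe_addRight]
    rw [add_right_comm x, add_right_comm (x + d)]

lemma small : (1 : Fin (m + 4)) ≠ 0 ∧ (1 + 1 : Fin (m + 4)) ≠ 0 ∧
    (1 + (1 + 1) : Fin (m + 4)) ≠ 0 := by
  have h1 : (1 : Fin (m + 4)).val = 1 := rfl
  have h2 : (1 + 1 : Fin (m + 4)).val = 2 := by
    rw [Fin.val_add, h1, Nat.mod_eq_of_lt (by omega)]
  have h3 : (1 + (1 + 1) : Fin (m + 4)).val = 3 := by
    rw [Fin.val_add, h1, h2, Nat.mod_eq_of_lt (by omega)]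
  refine ⟨fun h => ?_, fun h => ?_, fun h => ?_⟩
  · rw [h] at h1; simp at h1
  · rw [h] at h2; simp at h2
  · rw [h] at h3; simp at h3

lemma W_blocks (σ : Equiv.Perm (Fin (m + 4))) : ¬ Acceptable (W m) σ := by
  intro h
  simp only [Acceptable, finRotate_apply] at h
  have n1 : ∀ i : Fin (m + 4), i ≠ i + 1 := fun i e => (small m).1 (left_eq_add.1 e)
  have n2 : ∀ i : Fin (m + 4), i ≠ i + 1 + 1 := fun i e =>
    (small m).2.1 (left_eq_add.1 (by rwa [add_assoc] at e))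
  have n3 : ∀ i : Fin (m + 4), i ≠ i + 1 + 1 + 1 := fun i e =>
    (small m).2.2 (left_eq_add.1 (by rwa [add_assoc, add_assoc] at e))
  have c4 : ∀ i j, Disjoint ({σ i, σ (i + 1)} : Finset (Fin (m + 4))) {σ j, σ (j + 1)} →
      ({σ i, σ (i + 1)} ∪ {σ j, σ (j + 1)} : Finset (Fin (m + 4))).card = 4 := fun i j hd => by
    rw [card_union_of_disjoint hd, card_pair (σ.injective.ne (n1 i)),
      card_pair (σ.injective.ne (n1 j))]
  have ap : ∀ i, σ (i + 1) - σ i ≠ σ (i + 1 + 1) - σ (i + 1) := by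
    intro i e
    have hd : Disjoint ({σ i, σ (i + 1)} : Finset (Fin (m + 4)))
        {σ (i + 1 + 1), σ (i + 1 + 1 + 1)} := by
      simp only [disjoint_insert_left, disjoint_singleton_left, mem_insert, mem_singleton,
        EmbeddingLike.apply_eq_iff_eq, not_or]
      exact ⟨⟨n2 i, n3 i⟩, n1 _, n2 _⟩
    refine h _ _ hd (mem_filter.2 ⟨mem_union_right _ (mem_image.2
      ⟨(σ i, σ (i + 1) - σ i, σ (i + 1 + 1 + 1)), mem_univ _, ?_⟩), c4 _ _ hd⟩)
    simp only [f2, add_sub_cancel]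
    rw [e, add_sub_cancel]
  obtain ⟨i, -, j, -, hij, e⟩ := exists_ne_map_eq_of_card_lt_of_maps_to
    (s := univ) (t := univ.erase (0 : Fin (m + 4))) (card_erase_lt_of_mem (mem_univ _))
    (f := fun i => σ (i + 1) - σ i)
    (fun i _ => by simp [sub_eq_zero])
  have h1 : i ≠ j + 1 := fun h => ap j (by rw [← e, h])
  have h2 : i + 1 ≠ j := fun h => ap i (by rw [e, h])
  have hd : Disjoint ({σ i, σ (i + 1)} : Finset (Fin (m + 4))) {σ j, σ (j + 1)} := by
    simp only [disjoint_insert_left, disjoint_singleton_left, mem_insert, mem_singleton,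
      EmbeddingLike.apply_eq_iff_eq, not_or]
    exact ⟨⟨hij, h1⟩, h2, fun h => hij (add_right_cancel h)⟩
  refine h _ _ hd (mem_filter.2 ⟨mem_union_left _ (mem_image.2
    ⟨(σ i, σ (i + 1) - σ i, σ j), mem_univ _, ?_⟩), c4 _ _ hd⟩)
  simp only [f1, add_sub_cancel]
  rw [e, add_sub_cancel]
end

theorem result : (∃ c : ℝ, 0 < c ∧ ∀ n : ℕ, 8 ≤ n → c * (n : ℝ) ^ 3 ≤ v n ∧ v n ≤ 2 * n ^ 3) ∧
    ¬ ∃ c : ℝ, ∀ n : ℕ, 4 ≤ n → (v n : ℝ) ≤ c * (n : ℝ) ^ 2 := by
  have key : ∀ n : ℕ, 8 ≤ n → 1 / 2 ^ 21 * (n : ℝ) ^ 3 ≤ v n ∧ v n ≤ 2 * n ^ 3 := by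
    intro n hn
    obtain ⟨m, rfl⟩ : ∃ m, n = m + 4 := ⟨n - 4, by omega⟩
    have hW : (W m).card ∈ {k | ∃ F : Finset (Finset (Fin (m + 4))), (∀ S ∈ F, S.card = 4) ∧
        VertexTransitive F ∧ (∀ σ, ¬ Acceptable F σ) ∧ F.card = k} :=
      ⟨_, fun S hS => (mem_filter.1 hS).2, W_trans m, W_blocks m, rfl⟩
    refine ⟨?_, (Nat.sInf_le hW).trans (W_card m)⟩
    obtain ⟨F, h1, h2, h3, h4⟩ := Nat.sInf_mem ⟨_, hW⟩
    have := lower hn F h1 h2 h3
    rw [h4] at this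
    have h' : ((m + 4 : ℕ) : ℝ) ^ 3 ≤ 2 ^ 21 * v (m + 4) := by exact_mod_cast this
    linarith
  refine ⟨⟨_, by positivity, key⟩, ?_⟩
  rintro ⟨c, hc⟩
  obtain ⟨N, hN⟩ := exists_nat_gt (2 ^ 21 * c)
  have h1 := (key (N + 8) (by omega)).1.trans (hc (N + 8) (by omega))
  have h2 : (0 : ℝ) < ((N + 8 : ℕ) : ℝ) ^ 2 := by positivity
  push_cast at h1 h2
  nlinarith

end Pool.Agent.Results.MP_ef0d97_co.Cubic
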